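import Pool.Agent.H73.TS.Targets

/-!
Board `ts_modules`, letter SEP: unit slabs from separating hyperplanes.
-/

open MeasureTheory Set Metric
open scoped ENNReal

namespace Pool.Agent.H83.TS

open Pool.Agent.H73.TS

/-- On a closed convex set with an interior point, a continuous linear functional that avoids
the value `c` on the interior of the translate is on one side of `c`. -/
theorem side {d : ℕ} (K : Set (E d)) (hKc : IsClosed K) (hK : Convex ℝ K)
    (hne : (interior K).Nonempty) (f : E d →L[ℝ] ℝ) (c : ℝ) (u : E d)
    (h : ∀ y ∈ interior ((fun x => u + x) '' K), f y ≠ c) :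
    (∀ x ∈ K, f (u + x) ≤ c) ∨ (∀ x ∈ K, c ≤ f (u + x)) := by
  have hint : interior ((fun x => u + x) '' K) = (fun x => u + x) '' interior K := by
    have := (Homeomorph.addLeft u).image_interior K
    simpa using this.symm
  have hcl : K = closure (interior K) := by
    rw [hK.closure_interior_eq_closure_of_nonempty_interior hne, hKc.closure_eq]
  have hpre : IsPreconnected (interior K) := hK.interior.isPreconnected
  have hcont : Continuous fun x : E d => f (u + x) := by fun_prop
  have hne' : ∀ x ∈ interior K, f (u + x) ≠ c := by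
    intro x hx
    apply h
    rw [hint]
    exact ⟨x, hx, rfl⟩
  obtain ⟨z, hz⟩ := hne
  have key : (∀ x ∈ interior K, f (u + x) ≤ c) ∨ (∀ x ∈ interior K, c ≤ f (u + x)) := by
    by_contra hcon
    push Not at hcon
    obtain ⟨⟨x, hx, hx'⟩, ⟨y, hy, hy'⟩⟩ := hcon
    have := hpre.intermediate_value hy hx hcont.continuousOn
    obtain ⟨w, hw, hw'⟩ := this ⟨hy'.le, hx'.le⟩
    exact hne' w hw hw'
  rcases key with key | key
  · left
    intro x hx
    have : x ∈ closure (interior K) := by rw [← hcl]; exact hx
    exact (closure_minimal (fun x hx => key x hx) (isClosed_le hcont continuous_const)) this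
  · right
    intro x hx
    have : x ∈ closure (interior K) := by rw [← hcl]; exact hx
    exact (closure_minimal (fun x hx => key x hx) (isClosed_le continuous_const hcont)) this

theorem sep : T_SEP := by
  intro d L x₀ K hKc hK hball f c hf
  have hne : (interior K).Nonempty := by
    refine ⟨x₀, ?_⟩
    rw [mem_interior]
    refine ⟨(fun x => L (x - x₀)) ⁻¹' ball 0 (1 / 2), ?_, ?_, ?_⟩
    · intro x hx
      have hx' : ‖L (x - x₀)‖ ≤ 1 / 2 := by
        have : L (x - x₀) ∈ ball (0 : E d) (1 / 2) := hx
        rw [mem_ball_zero_iff] at this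
        exact this.le
      have := hball _ hx'
      simpa using this
    · apply isOpen_ball.preimage
      fun_prop
    · simp
  set F : E d →L[ℝ] ℝ := f.comp (L.symm : E d →L[ℝ] E d) with hF
  set g : E d := (InnerProductSpace.toDual ℝ (E d)).symm F with hg
  have hgin : ∀ b : E d, inner ℝ g b = f (L.symm b) := by
    intro b
    rw [hg, InnerProductSpace.toDual_symm_apply]
    rfl
  have hgne : g ≠ 0 := by
    intro h0
    apply hf
    ext x
    have := hgin (L x)
    rw [h0] at this
    simpa using this.symm
  have hgpos : 0 < ‖g‖ := norm_pos_iff.mpr hgne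
  have hgg : inner ℝ g g = ‖g‖ ^ 2 := real_inner_self_eq_norm_sq g
  refine ⟨(1 / ‖g‖) • g, c / ‖g‖, ?_, ?_⟩
  · rw [norm_smul, Real.norm_eq_abs, abs_of_pos (by positivity)]
    field_simp
  · intro u hu
    have hux : inner ℝ ((1 / ‖g‖) • g) (L (u + x₀)) = f (u + x₀) / ‖g‖ := by
      rw [real_inner_smul_left, hgin]
      simp
      ring
    rw [hux]
    rcases side K hKc hK hne f c u hu with h | h
    · left
      refine ⟨?_, h⟩
      have hb : ‖(1 / (2 * ‖g‖)) • g‖ ≤ 1 / 2 := by
        rw [norm_smul, Real.norm_eq_abs, abs_of_pos (by positivity)]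
        apply le_of_eq
        field_simp
      have h1 := h _ (hball _ hb)
      have h2 : f (u + (x₀ + L.symm ((1 / (2 * ‖g‖)) • g))) = f (u + x₀) + ‖g‖ / 2 := by
        rw [← add_assoc, map_add, ← hgin, real_inner_smul_right, hgg]
        congr 1
        field_simp
      rw [h2] at h1
      rw [div_le_iff₀ hgpos, sub_mul, div_mul_cancel₀ _ hgpos.ne']
      linarith
    · right
      refine ⟨?_, h⟩
      have hb : ‖(-(1 / (2 * ‖g‖))) • g‖ ≤ 1 / 2 := by
        rw [norm_smul, Real.norm_eq_abs, abs_neg, abs_of_pos (by positivity)]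
        apply le_of_eq
        field_simp
      have h1 := h _ (hball _ hb)
      have h2 : f (u + (x₀ + L.symm ((-(1 / (2 * ‖g‖))) • g))) = f (u + x₀) - ‖g‖ / 2 := by
        rw [← add_assoc, map_add, ← hgin, real_inner_smul_right, hgg, sub_eq_add_neg]
        congr 1
        field_simp
      rw [h2] at h1
      rw [le_div_iff₀ hgpos, add_mul, div_mul_cancel₀ _ hgpos.ne']
      linarith

end Pool.Agent.H83.TS
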