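import Pool.Agent.H73.TS.Targets

/-!
Board `ts_modules`, letter PAR: coordinates adapted to a parallelotope.
-/

open MeasureTheory Set Metric
open scoped ENNReal

namespace Pool.Agent.H83.TS

open Pool.Agent.H73.TS

/-- The unit cube has volume one. -/
theorem vol_cube (d : ℕ) :
    volume {b : E d | ∀ i, b i ∈ Set.Icc (0 : ℝ) 1} = 1 := by
  have h := EuclideanSpace.volume_preserving_symm_measurableEquiv_toLp (Fin d)
  have h1 : {b : E d | ∀ i, b i ∈ Set.Icc (0 : ℝ) 1} =
      (MeasurableEquiv.toLp 2 (Fin d → ℝ)).symm ⁻¹' (Set.Icc (fun _ => 0) (fun _ => 1)) := by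
    ext b
    simp only [Set.mem_ofPred_eq, Set.mem_preimage, Set.mem_Icc, Pi.le_def]
    constructor
    · intro h
      exact ⟨fun i => (h i).1, fun i => (h i).2⟩
    · intro h i
      exact ⟨h.1 i, h.2 i⟩
  rw [h1, h.measure_preimage_equiv, Real.volume_Icc_pi]
  simp

theorem par : T_PAR := by
  intro d w v hw
  classical
  set bas : Module.Basis (Fin d) ℝ (E d) :=
    Module.Basis.mk hw (hw.span_eq_top_of_card_eq_finrank' (by simp)).ge with hbas
  have hbas' : ∀ i, bas i = w i := by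
    intro i
    rw [hbas, Module.Basis.mk_apply]
  set L : E d ≃L[ℝ] E d :=
    (bas.equiv (EuclideanSpace.basisFun (Fin d) ℝ).toBasis (Equiv.refl _)).toContinuousLinearEquiv
    with hL
  have hLw : ∀ i, L (w i) = EuclideanSpace.single i (1 : ℝ) := by
    intro i
    rw [hL, LinearEquiv.coe_toContinuousLinearEquiv', ← hbas', Module.Basis.equiv_apply]
    simp
  have hLs : ∀ b : E d, L.symm b = ∑ i, b i • w i := by
    intro b
    rw [ContinuousLinearEquiv.symm_apply_eq, map_sum]
    simp_rw [map_smul, hLw]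
    ext j
    simp [Pi.single_apply]
  refine ⟨L, hLw, ?_, ?_⟩
  · have h1 : Par w v = (fun x => x + v) '' (L.symm '' {b : E d | ∀ i, b i ∈ Set.Icc (0 : ℝ) 1}) := by
      ext y
      constructor
      · rintro ⟨a, ha, rfl⟩
        refine ⟨∑ i, a i • w i, ⟨WithLp.toLp 2 a, ha, ?_⟩, add_comm _ _⟩
        rw [hLs]
      · rintro ⟨_, ⟨b, hb, rfl⟩, rfl⟩
        refine ⟨fun i => b i, hb, ?_⟩
        simp only [hLs]
        rw [add_comm]
    rw [h1]
    rw [Set.image_add_right, measure_preimage_add_right]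
    have h2 : volume (L.symm '' {b : E d | ∀ i, b i ∈ Set.Icc (0 : ℝ) 1}) =
        ENNReal.ofReal |LinearMap.det ((L.symm : E d →L[ℝ] E d) : E d →ₗ[ℝ] E d)| *
          volume {b : E d | ∀ i, b i ∈ Set.Icc (0 : ℝ) 1} := by
      exact Measure.addHaar_image_continuousLinearEquiv volume L.symm _
    rw [h2, vol_cube, mul_one, ← ENNReal.ofReal_mul (abs_nonneg _), ← abs_mul, ← LinearMap.det_comp]
    have h3 : (((L.symm : E d →L[ℝ] E d) : E d →ₗ[ℝ] E d) ∘ₗ (L : E d →ₗ[ℝ] E d)) =
        LinearMap.id := by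
      ext x
      simp
    have h4 : LinearMap.det ((((L.symm : E d →L[ℝ] E d) : E d →ₗ[ℝ] E d)) ∘ₗ
        (L : E d →ₗ[ℝ] E d)) = 1 := by
      rw [h3]
      exact LinearMap.det_id
    rw [h4]
    simp
  · intro b hb
    refine ⟨fun i => b i, ?_, ?_⟩
    · have h1 : ‖b‖ ^ 2 = ∑ i, b i ^ 2 := by
        rw [EuclideanSpace.norm_sq_eq]
        simp
      rw [← h1]
      nlinarith [norm_nonneg b]
    · rw [hLs, add_assoc, ← Finset.sum_add_distrib]
      congr 1
      apply Finset.sum_congr rfl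
      intro i _
      rw [add_smul]

end Pool.Agent.H83.TS
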